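import Mathlib

set_option autoImplicit false

namespace Pool.Agent.Results.MP_322323_co.Counter

/-- Binary words with holes: `none` is a hole. -/
abbrev PW := List (Option Bool)

/-- `u ⊂ y` for a full word `y` of the same length. -/
def Sub (u : PW) (y : List Bool) : Prop := List.Forall₂ (fun a b => a = none ∨ a = some b) u y

/-- The number of nonempty full words `x` such that some factor `u` of `w` has `u ⊂ xx`. -/
noncomputable def Sq (w : PW) : ℕ := Set.ncard {x : List Bool | x ≠ [] ∧ ∃ u, u <:+: w ∧ Sub u (x ++ x)}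

/-- The largest drop of `Sq` when one hole is filled. -/
noncomputable def dSq (w : PW) : ℤ :=
  sSup {d | ∃ (i : ℕ) (c : Bool), w[i]? = some none ∧ d = (Sq w : ℤ) - Sq (w.set i (some c))}

/-- The largest `dSq w` over words of length `n` with `h` holes. -/
noncomputable def Delta (h n : ℕ) : ℤ := sSup {d | ∃ w : PW, w.length = n ∧ w.count none = h ∧ d = dSq w}

def ext : PW → List (List Bool)
  | [] => [[]]
  | none :: u => (ext u).map (true :: ·) ++ (ext u).map (false :: ·)
  | some b :: u => (ext u).map (b :: ·)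

lemma mem_ext (u : PW) (y : List Bool) : y ∈ ext u ↔ Sub u y := by
  induction' u with a u ih generalizing y
  · simp [ext, Sub]
  · rcases y with _ | ⟨b, y⟩
    · cases a <;> simp [ext, Sub]
    · have := ih y
      cases a <;> cases b <;> simp_all [ext, Sub, and_comm]

def F (w : PW) : Finset (List Bool) :=
  ((((w.tails.flatMap List.inits).flatMap ext).filter fun y =>
    y ≠ [] ∧ y = y.take (y.length / 2) ++ y.take (y.length / 2)).map
      fun y => y.take (y.length / 2)).toFinset

lemma Sq_eq (w : PW) : Sq w = (F w).card := by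
  rw [Sq, ← Set.ncard_coe_finset]
  congr 1
  ext x
  simp only [F, Set.mem_setOf_eq, Finset.mem_coe, List.mem_toFinset, List.mem_map, List.mem_filter,
    List.mem_flatMap, List.mem_tails, List.mem_inits, mem_ext, decide_eq_true_eq]
  constructor
  · rintro ⟨h, u, hu, hs⟩
    obtain ⟨t, h1, h2⟩ := List.infix_iff_prefix_suffix.1 hu
    have e : (x ++ x).take ((x ++ x).length / 2) = x := by
      rw [List.length_append, ← two_mul, Nat.mul_div_cancel_left _ two_pos, List.take_left]
    exact ⟨x ++ x, ⟨⟨u, ⟨t, h2, h1⟩, hs⟩, by simpa using h, by rw [e]⟩, e⟩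
  · rintro ⟨y, ⟨⟨u, ⟨t, h2, h1⟩, hs⟩, h3, h4⟩, rfl⟩
    exact ⟨fun h => h3 (by rw [h4, h]; rfl), u, h1.isInfix.trans h2.isInfix, h4 ▸ hs⟩

def w : PW := [some false, some false, some false, some false, some false, some true, some false, some false, some false, none, none, some false, some true, some false, some false, some false, some false, some false, some true, some false, some false, some false]

lemma both : 15 ≤ Delta 2 22 ∧ ¬ ∀ n : ℕ, 8 ≤ n → Delta 2 n = 7 * ((n : ℤ) - 1) / 10 := by
  have h1 : 15 ≤ dSq w := by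
    refine le_csSup (Set.Finite.bddAbove ?_) ⟨10, true, rfl, ?_⟩
    · refine ((Set.finite_lt_nat 22).prod (Set.finite_univ (α := Bool))).image
        (fun p => (Sq w : ℤ) - Sq (w.set p.1 (some p.2))) |>.subset ?_
      rintro _ ⟨i, c, h, rfl⟩
      exact ⟨(i, c), ⟨(List.getElem?_eq_some_iff.1 h).1, trivial⟩, rfl⟩
    · rw [Sq_eq, Sq_eq]; decide +kernel
  have h2 : 15 ≤ Delta 2 22 := by
    refine h1.trans (le_csSup (Set.Finite.bddAbove ?_) ⟨w, rfl, by decide, rfl⟩)
    refine ((List.finite_length_eq (Option Bool) 22).image dSq).subset ?_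
    rintro _ ⟨v, h, -, rfl⟩
    exact ⟨v, h, rfl⟩
  refine ⟨h2, fun h => ?_⟩
  rw [h 22 (by norm_num)] at h2
  norm_num at h2

theorem result : ¬ ∀ n : ℕ, 8 ≤ n → Delta 2 n = 7 * ((n : ℤ) - 1) / 10 := both.2


end Pool.Agent.Results.MP_322323_co.Counter
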